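import Pool.Agent.W_7742ab_h70.One

/-! The field generated by the squares of the absolute values of the Hecke eigenvalues of forms on
`GL₂`. -/

namespace Pool.Agent.Results.MP_7742d9_nt.AdjointField

open Pool.Agent.H70A
open Pool.Agent.H74V.SatakeSystem (DensityLE DensityGE)
open Pool.Agent.H70B (HasRepMod IsArtin isArtin_of_mod)
open Pool.Agent.PsC74 (GQ IsFrobeniusChoice)
open NumberField

/-- Let `F` be a number field and let `b p` be integral elements of `F`, for the primes `p` not
dividing the level, which generate `F`.  For every embedding `σ` of `F` let there be a cusp form on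
`GL₂` over `ℚ` whose (normalised) Hecke eigenvalues `a` satisfy `|a|² = σ (b p)`.  Let the Satake
classes `diag (1, L)` on `GL₃` and `diag (1, L, L²)` on `GL₅`, where `L` has determinant `1` and trace
`b p - 2`, be such that for every `σ` the conjugates are the Satake classes of cusp forms, where the
Whittaker coefficients at the primes dividing the level do not depend on `σ`.  Then:

(1) `F = ℚ(√5)`;
(2) every `b p` is a natural number or a root of `X ^ 2 - 3 X + 1`;
(3) the latter holds for a set of primes of density `2 / 5`;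
(4) `b p = 0` and `b p = 1` hold for sets of primes of lower density at least `1 / 5`;
(5) `b p` is a natural number `≥ n` for a set of primes of upper density at most `1 / 10` for `n = 2`,
`1 / 30` for `n = 3` and `2 / (5 ((n ^ 2 - 3 n + 1) ^ 2 - 1))` for `n ≥ 4`;
(6) the eigenvalues `z` of all conjugates of the class on `GL₃` satisfy `z ^ 60 = 1`, for a set of
primes of lower density at least `299 / 300`;
(7) if for one `σ` the cusp form on `GL₂` can be chosen with Satake classes `M p` such that the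
quadratic twists of the symmetric cubes of the `M p` are the Satake classes of cusp forms on `GL₄`
(see `HasQuadraticTwists`) then `b p = 0`, `b p = 1` and `b p = 4` hold for sets of primes of
densities `1 / 4`, `1 / 3` and `1 / 60`, and the eigenvalues `z` of all conjugates of the class on
`GL₃` satisfy `z ^ 30 = 1` for a set of primes of density `1`;
(8) if the hypothesis of (7) holds, `K` is a number field containing `F`, `a p` and `w p` are elements of
`𝓞 K`, `l` is a maximal ideal of `𝓞 K` which does not contain `30 k`, and `r : G_ℚ → GL₂(𝓞 K / l)` is a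
homomorphism with open kernel such that `w p ^ k = 1`, `a p ^ 2 = b p * w p` and the characteristic
polynomial of `r (Frob p)` is the reduction of `X ^ 2 - a p * X + w p`, for all `p` outside a set of
density zero (`HasRepMod`), then for every embedding `τ` of `K` there is an absolutely irreducible
representation `R` of degree `2` of `G_ℚ` with open kernel over a number field `E ⊆ ℂ` such that
`X ^ 2 - τ (a p) * X + τ (w p)` is the characteristic polynomial of `R (Frob p)` for all `p` outside a set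
of density zero (`IsArtin`). -/
theorem result (F : Type) [Field F] [NumberField F] (π : AdjointSystem F) (hg : π.Generates)
    (hs : ∀ σ : F →+* ℂ, π.IsSquareModulus σ) (hAd : π.ad.IsCuspidalFamily)
    (hSym : π.sym.IsCuspidalFamily) :
    (∃ r : F, r ^ 2 = 5 ∧ IntermediateField.adjoin ℚ {r} = ⊤) ∧
    (∀ p, π.Good p → (∃ m : ℕ, π.b p = m) ∨ π.b p ^ 2 - 3 * π.b p + 1 = 0) ∧
    (DensityLE (fun p => π.Good p ∧ π.b p ^ 2 - 3 * π.b p + 1 = 0) (2 / 5) ∧
      DensityGE (fun p => π.Good p ∧ π.b p ^ 2 - 3 * π.b p + 1 = 0) (2 / 5)) ∧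
    (DensityGE (fun p => π.Good p ∧ π.b p = 0) (1 / 5) ∧
      DensityGE (fun p => π.Good p ∧ π.b p = 1) (1 / 5)) ∧
    (DensityLE (fun p => π.Good p ∧ ∃ m : ℕ, 2 ≤ m ∧ π.b p = m) (1 / 10) ∧
      DensityLE (fun p => π.Good p ∧ ∃ m : ℕ, 3 ≤ m ∧ π.b p = m) (1 / 30) ∧
      ∀ n : ℕ, 4 ≤ n → DensityLE (fun p => π.Good p ∧ ∃ m : ℕ, n ≤ m ∧ π.b p = m)
        (2 / (5 * (((n : ℝ) ^ 2 - 3 * n + 1) ^ 2 - 1)))) ∧
    DensityGE (fun p => π.Good p ∧ ∀ (σ : F →+* ℂ) (z : ℂ),
      ((π.ad.A p).charpoly.map σ).IsRoot z → z ^ 60 = 1) (299 / 300) ∧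
    ((∃ σ : F →+* ℂ, π.HasCube σ) →
      (DensityLE (fun p => π.Good p ∧ π.b p = 0) (1 / 4) ∧
        DensityGE (fun p => π.Good p ∧ π.b p = 0) (1 / 4)) ∧
      (DensityLE (fun p => π.Good p ∧ π.b p = 1) (1 / 3) ∧
        DensityGE (fun p => π.Good p ∧ π.b p = 1) (1 / 3)) ∧
      (DensityLE (fun p => π.Good p ∧ π.b p = 4) (1 / 60) ∧
        DensityGE (fun p => π.Good p ∧ π.b p = 4) (1 / 60)) ∧
      DensityGE (fun p => π.Good p ∧ ∀ (σ : F →+* ℂ) (z : ℂ),
        ((π.ad.A p).charpoly.map σ).IsRoot z → z ^ 30 = 1) 1 ∧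
      ∀ (K : Type) [Field K] [NumberField K] (ι : F →+* K) (Frob : Nat.Primes → GQ),
        IsFrobeniusChoice Frob → ∀ a w : ℕ → 𝓞 K, HasRepMod π ι Frob a w →
          ∀ τ : K →+* ℂ, IsArtin Frob (fun p => τ (a p)) (fun p => τ (w p))) := by
  obtain ⟨p0, hp0, hb0⟩ := AdjointSystem.exists_golden hSym
  have hr := AdjointSystem.sq_five hb0
  have hE := AdjointSystem.E5_bot hg hs hAd hSym
  obtain ⟨σ₁, σ₂, hne⟩ := AdjointSystem.exists_ne hr
  have h : AdjointSystem.Hyp π σ₁ σ₂ := ⟨hg, hs, hAd, hSym, hE, hne⟩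
  refine ⟨⟨_, hr, AdjointSystem.adjoin_top hg hs hE hr⟩, fun p hp => AdjointSystem.values hs hE hp,
    ⟨AdjointSystem.golden_le h, AdjointSystem.golden_ge h⟩,
    ⟨AdjointSystem.zero_ge h, AdjointSystem.one_ge h⟩,
    ⟨AdjointSystem.two_le h, AdjointSystem.three_le h, fun n hn => AdjointSystem.large_le h hn⟩,
    AdjointSystem.order_ge h, ?_⟩
  rintro ⟨σ, hC⟩
  obtain ⟨τ, hτ⟩ : ∃ τ : F →+* ℂ, σ ≠ τ := by
    by_cases h1 : σ = σ₁
    · exact ⟨σ₂, h1 ▸ hne⟩
    · exact ⟨σ₁, h1⟩
  have h' : AdjointSystem.Hyp π σ τ := ⟨hg, hs, hAd, hSym, hE, hτ⟩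
  exact ⟨⟨AdjointSystem.zero_le' h' hC, AdjointSystem.zero_ge' h' hC⟩,
    ⟨AdjointSystem.one_le' h' hC, AdjointSystem.one_ge' h' hC⟩,
    ⟨AdjointSystem.four_le h', AdjointSystem.four_ge h' hC⟩, AdjointSystem.order_one h' hC,
    fun K _ _ ι Frob hF a w hR τ => isArtin_of_mod h' hC ι Frob hF a w hR τ⟩

end Pool.Agent.Results.MP_7742d9_nt.AdjointField
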