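import Pool.Agent.W_7742h_h74.HOne

/-! # A criterion for one cuspidal representation of `GL_n` over `ℚ` to belong to an Artin motive. -/

namespace Pool.Agent.Results.MP_7742d9_nt.ArtinCriterion

open NumberField Polynomial Pool.Agent.GLForm74 Pool.Agent.PsC74

/-- Let `n ≥ 2`, `N ≥ 1`, and let `P p`, `p` prime, be polynomials over `ℂ`, monic of degree `n` if `p`
does not divide `N`, which are the Hecke polynomials of a cusp form on `GL_n` over `ℚ` of level `N`.  Let
`F p` be Frobenius elements in the absolute Galois group `G_ℚ` of `ℚ`, let `U p` and `V` be subsets of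
`G_ℚ`, and let `z : G_ℚ → ℂ` be a function whose value at `F p` is the trace of `P p`, if `p` does not
divide `N`.

The following are equivalent.

(a) There are a number field `E ⊆ ℂ` and an absolutely irreducible representation `R : G_ℚ → GL_n(E)` with
open kernel such that for all `p` outside a set of density zero `tr R(F p) = z(F p)` and `tr R(g) = z(g)`
for all `g ∈ U p`, and such that `tr R(g) = z(g)` for all `g ∈ V`.

(b) For every subset `W` of `V` with at most one element and every `ε > 0` there are an integer `T ≥ 2 n`,
a number field `K ⊆ ℂ`, a subring `O` of `K`, a homomorphism `ι` from `O` to a commutative ring `A` such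
that every nonzero element of its kernel has height at least `T ^ (7 (n + 1)!)`, and a locally constant
pseudo-character `t : G_ℚ → A` of dimension `n`, such that for all `p` outside a set of upper density at
most `ε`, for `g = F p`, for all `g ∈ U p`, and for all `g ∈ W`, the number `z(g)` is an element of `O` of
height at most `T`, and its image in `A` is `t(g)`.

(c) There are a number field `K ⊆ ℂ` of degree `d`, elements `b p` of `𝓞 K`, a homomorphism `ι` from `𝓞 K`
to a commutative ring `A` whose kernel has norm at least `(2 n) ^ (3 (n ^ 2 + 1) d)` (so it is not zero),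
and a locally constant pseudo-character `t : G_ℚ → A` of dimension `n`, such that for all `p` outside a
set of density zero `b p = z(F p)`, and its image in `A` is `t(F p)`; the mean of the sum
over the embeddings `s` of `K` of the `|s (b p)| ^ 2` is at most `d`; and for the `g ∈ U p`, if `p` is
outside a set of density zero, and for all `g ∈ V` the number `z(g)` is an element of `𝓞 K` whose conjugates
have absolute value at most `(2 n) ^ (n ^ 2)`, and its image is `t(g)`.

The mean in (c) is at most `d` if `b p` is the trace of `Q p`, where `Q p` are polynomials over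
`𝓞 K`, monic of degree `n` if `p` does not divide `N`, such that for every embedding `s` of `K` the
`s (Q p)` or their complex conjugates are the Hecke polynomials of a cusp form on `GL_n` of level `N`.

A pseudo-character of dimension `n` (Taylor) is a class function `t` with `t 1 = n` which satisfies the
fundamental identity of degree `n + 1` of the traces of `n × n` matrices.  If `U p` is the set of the powers
of `F p`, and `z(F p ^ k)` is the sum of the `k`-th powers of the roots of `P p`, (a) says that `P p` is
the characteristic polynomial of `R(F p)` for all `p` outside a set of density zero. -/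
theorem result (n N : ℕ) (hn : 2 ≤ n) (hN : 0 < N) (P : ℕ → ℂ[X])
    (hP : ∀ p : ℕ, p.Prime → ¬ p ∣ N → (P p).Monic ∧ (P p).natDegree = n)
    (hc : IsCuspidalSystem N P n) (F : Nat.Primes → GQ) (hF : IsFrobeniusChoice F)
    (U : Nat.Primes → Set GQ) (V : Set GQ) (z : GQ → ℂ)
    (hz : ∀ p : Nat.Primes, ¬ (p : ℕ) ∣ N → z (F p) = -(P p).coeff (n - 1)) :
    [HasMotive n F U V z,
      ∀ W ⊆ V, W.Subsingleton → AttachedNear n F U W z,
      AttachedOne n F U V z].TFAE ∧
    ∀ (K : Type) [Field K] [NumberField K] (Q : ℕ → (𝓞 K)[X]),
      (∀ p : ℕ, p.Prime → ¬ p ∣ N → (Q p).Monic ∧ (Q p).natDegree = n) →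
      (∀ s : K →+* ℂ,
        IsCuspidalSystem N (fun p => (Q p).map (s.comp (algebraMap (𝓞 K) K))) n ∨
        IsCuspidalSystem N (fun p => (Q p).map
          ((starRingEnd ℂ).comp (s.comp (algebraMap (𝓞 K) K)))) n) →
      MeanLE (Module.finrank ℚ K) fun p => ∑ s : K →+* ℂ, ‖s ((Q p).coeff (n - 1) : K)‖ ^ 2 :=
  ⟨tfae_p hn hN hc hF hz, fun _ _ _ Q hQ hs => mean_all hn hN Q hQ hs⟩

end Pool.Agent.Results.MP_7742d9_nt.ArtinCriterion
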