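import Pool.Agent.W_7742q_h74.QMain

/-! Satake classes of finite order, for cusp forms on `GL_n` with integral Satake polynomials. -/

namespace Pool.Agent.Results.MP_7742d9_nt.FiniteOrder

open Pool.Agent.H74V

/-- Let `K` be a number field, `n ≥ 2` and `π` a system of Satake classes of rank `n` whose
characteristic polynomials are integral over `K`.  If all conjugates `π^σ` are the systems of Satake
classes of cusp forms on `GL_n` over `ℚ`, then ten times the density of the primes with `tr A p = 0`
plus four times that of the primes such that `tr A p` is a root of unity plus that of the primes such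
that `tr A p` is a root of unity times a root of `x ^ 2 = x + 1` is at least four (lower Dirichlet
densities).  If `n = 2` the eigenvalues of `A p` are roots of unity for a set of primes of lower
density at least `2 / 5`; if `n = 3` this holds with `1 / 3`, and with `2 / 5` if `5` is not a
square in `K`. -/
theorem result (K : Type) [Field K] [NumberField K] (n : ℕ) (hn : 2 ≤ n) (π : SatakeSystem K n)
    (h : ∀ σ : K →+* ℂ, π.IsCuspidal σ) :
    π.ManyUnits2 ∧ (n = 2 → π.ManyFinite (2 / 5)) ∧
      (n = 3 → π.ManyFinite (1 / 3) ∧ ((∀ x : K, x ^ 2 ≠ 5) → π.ManyFinite (2 / 5))) :=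
  π.finite_main hn h

end Pool.Agent.Results.MP_7742d9_nt.FiniteOrder
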