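import Pool.Agent.W_7742v_h74.Van

/-! Vanishing of Hecke traces for cusp forms on `GL_n` with integral Satake polynomials. -/

namespace Pool.Agent.Results.MP_7742d9_nt.VanishingTraces

open Pool.Agent.H74V

/-- Let `K` be a number field, `n ≥ 2` and `π` a system of Satake classes of rank `n` whose
characteristic polynomials are integral over `K`, such that for every embedding `σ` of `K` the
conjugate `π^σ` is the system of Satake classes of a cusp form on `GL_n` over `ℚ`.  Then the series of
the `p ^ (-x)` over the primes `p` such that `tr A p = 0` diverges for `x = 1 / (n + 1)`.  If the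
`(s - 1) L_σ(s)`, where `L_σ(s) = L(s, π^σ × (π^σ)^∨)` are the partial Rankin-Selberg `L`-functions,
extend to analytic functions for real part `> 0`, it diverges for all `x < Re ρ` if `ρ` is a zero or a
pole of `∏_σ L_σ(s) / ζ(s) ^ [K : ℚ]` of positive real part. -/
theorem result (K : Type) [Field K] [NumberField K] (n : ℕ) (hn : 2 ≤ n) (π : SatakeSystem K n)
    (h : ∀ σ : K →+* ℂ, π.IsCuspidal σ) :
    π.Diverges (1 / ((n : ℝ) + 1)) ∧ ∀ g : (K →+* ℂ) → ℂ → ℂ, (∀ σ, π.Continues σ (g σ)) →
      ∀ ρ : ℂ, 0 < ρ.re → ZeroOrPole g ρ → ∀ x : ℝ, x < ρ.re → π.Diverges x :=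
  SatakeSystem.vanishing hn h

end Pool.Agent.Results.MP_7742d9_nt.VanishingTraces
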